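import Mathlib

set_option autoImplicit false

namespace Pool.Agent.Results.MP_ed2cb0_co.PathSeven

/-- neighbourhood masks -/
def msk (i : Fin 9) : ℕ := ![174, 333, 91, 151, 428, 465, 294, 313, 242] i

/-- A graph on nine vertices whose slide IR-graph is the path on seven vertices. -/
def G : SimpleGraph (Fin 9) where
  Adj i j := Nat.testBit (msk i) j.val = true
  symm := by
    have h : ∀ i j : Fin 9, Nat.testBit (msk i) j.val = true → Nat.testBit (msk j) i.val = true := by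
      decide +kernel
    exact ⟨h⟩
  loopless := by
    have h : ∀ i : Fin 9, ¬ Nat.testBit (msk i) i.val = true := by decide +kernel
    exact ⟨h⟩

instance : DecidableRel G.Adj := fun i j => by unfold G; infer_instance

def Irr (D : Finset (Fin 9)) : Prop :=
  ∀ v ∈ D, ∃ w : Fin 9, (w = v ∨ G.Adj v w) ∧ ∀ u ∈ D, u ≠ v → ¬ (w = u ∨ G.Adj u w)

instance (D : Finset (Fin 9)) : Decidable (Irr D) := by unfold Irr; infer_instance

def S : Fin 7 → Finset (Fin 9) :=
  ![{0, 1, 3}, {0, 1, 2}, {0, 2, 6}, {0, 4, 6}, {4, 5, 6}, {4, 5, 8}, {4, 7, 8}]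

set_option maxRecDepth 100000 in
theorem allIrr : ∀ D : Finset (Fin 9), Irr D → D.card ≤ 3 ∧ (D.card = 3 → ∃ i, S i = D) := by
  decide +kernel

theorem S_irr : ∀ i, Irr (S i) ∧ (S i).card = 3 := by decide +kernel

theorem S_inj : ∀ i j, S i = S j → i = j := by decide +kernel

def Rel (D E : Finset (Fin 9)) : Prop :=
  ∃ u v : Fin 9, D \ E = {u} ∧ E \ D = {v} ∧ G.Adj u v

instance (D E : Finset (Fin 9)) : Decidable (Rel D E) := by unfold Rel; infer_instance

theorem adj_iff : ∀ i j : Fin 7,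
    (i ≠ j ∧ (Rel (S i) (S j) ∨ Rel (S j) (S i))) ↔ (i.val + 1 = j.val ∨ j.val + 1 = i.val) := by
  decide +kernel


def H : SimpleGraph (Fin 7) := SimpleGraph.pathGraph 7

theorem H_adj (i j : Fin 7) : H.Adj i j ↔ (i.val + 1 = j.val ∨ j.val + 1 = i.val) := by
  unfold H
  rw [SimpleGraph.pathGraph_adj]

/-- The slide IR-graph of `Γ`: vertices are the irredundant sets of maximum size, two of them
adjacent when one arises from the other by sliding one vertex along an edge. -/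
def IRGraph {p : ℕ} (Γ : SimpleGraph (Fin p)) :
    SimpleGraph {D : Finset (Fin p) //
      (∀ v ∈ D, ∃ w : Fin p, (w = v ∨ Γ.Adj v w) ∧ ∀ u ∈ D, u ≠ v → ¬ (w = u ∨ Γ.Adj u w)) ∧
      ∀ F : Finset (Fin p),
        (∀ v ∈ F, ∃ w : Fin p, (w = v ∨ Γ.Adj v w) ∧ ∀ u ∈ F, u ≠ v → ¬ (w = u ∨ Γ.Adj u w)) →
        F.card ≤ D.card} :=
  SimpleGraph.fromRel (fun D E => ∃ u v : Fin p, D.1 \ E.1 = {u} ∧ E.1 \ D.1 = {v} ∧ Γ.Adj u v)

/-- The path on seven vertices is the slide IR-graph of a graph on nine vertices. -/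
theorem result : ∃ Γ : SimpleGraph (Fin 9), Nonempty (SimpleGraph.pathGraph 7 ≃g IRGraph Γ) := by
  refine ⟨G, ?_⟩
  have hS : ∀ i, (∀ v ∈ S i, ∃ w : Fin 9, (w = v ∨ G.Adj v w) ∧
                ∀ u ∈ S i, u ≠ v → ¬ (w = u ∨ G.Adj u w)) ∧
            ∀ F : Finset (Fin 9),
              (∀ v ∈ F, ∃ w : Fin 9, (w = v ∨ G.Adj v w) ∧
                  ∀ u ∈ F, u ≠ v → ¬ (w = u ∨ G.Adj u w)) →
              F.card ≤ (S i).card := by
    intro i
    refine ⟨(S_irr i).1, ?_⟩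
    intro F hF
    rw [(S_irr i).2]
    exact (allIrr F hF).1
  let f : Fin 7 → {D : Finset (Fin 9) //
            (∀ v ∈ D, ∃ w : Fin 9, (w = v ∨ G.Adj v w) ∧
                ∀ u ∈ D, u ≠ v → ¬ (w = u ∨ G.Adj u w)) ∧
            ∀ F : Finset (Fin 9),
              (∀ v ∈ F, ∃ w : Fin 9, (w = v ∨ G.Adj v w) ∧
                  ∀ u ∈ F, u ≠ v → ¬ (w = u ∨ G.Adj u w)) →
              F.card ≤ D.card} := fun i => ⟨S i, hS i⟩
  have hf : Function.Bijective f := by
    constructor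
    · intro i j hij
      exact S_inj i j (congrArg Subtype.val hij)
    · rintro ⟨D, hD1, hD2⟩
      have h3 : D.card = 3 := by
        apply le_antisymm (allIrr D hD1).1
        have := hD2 (S 0) (S_irr 0).1
        rwa [(S_irr 0).2] at this
      obtain ⟨i, hi⟩ := (allIrr D hD1).2 h3
      exact ⟨i, Subtype.ext hi⟩
  refine ⟨⟨Equiv.ofBijective f hf, ?_⟩⟩
  intro i j
  change (IRGraph G).Adj (f i) (f j) ↔ H.Adj i j
  unfold IRGraph
  rw [H_adj, ← adj_iff, SimpleGraph.fromRel_adj]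
  constructor
  · rintro ⟨h1, h2⟩
    exact ⟨fun h => h1 (congrArg f h), h2⟩
  · rintro ⟨h1, h2⟩
    exact ⟨fun h => h1 (hf.1 h), h2⟩

end Pool.Agent.Results.MP_ed2cb0_co.PathSeven
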